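import Pool.Agent.H84.ND.Defs

/-!
# MP_70ba79_ag: targets of the board `ndc_modules`, part 1: sections for irreducible curves, upper
bounds by restriction to lines, lower bounds by specialisation
-/

set_option autoImplicit false

namespace Pool.Agent.H84.ND

open MvPolynomial SC Pool.Agent.H27.LV Pool.Agent.H84.SM

/-! ### Copies of rows of `smc_modules` for irreducible curves -/

/-- GPN: `G` is prime in the ring of a chart and does not divide its derivatives -/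
def T_GPN : Prop := ∀ (k : Type) [Field k] [IsAlgClosed k] [CharZero k]
  (G : MvPolynomial (Fin 3) k) (d : ℕ), Ird G d →
  Prime (gp G) ∧ Prime (aeval (xb (k := k)) G) ∧ Prime (gA G) ∧ Prime (gR G) ∧
  ∀ l, pderiv l G ≠ 0 ∧ ¬ G ∣ pderiv l G ∧ ¬ aeval (xb (k := k)) G ∣ gr G xb l ∧
    ¬ gp G ∣ Polynomial.C (gr G xb l)

/-- PSN: the substitutions are injective on invariant elements -/
def T_PSN : Prop := ∀ (k : Type) [Field k] [IsAlgClosed k] [CharZero k]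
  (G : MvPolynomial (Fin 3) k) (d : ℕ), Ird G d → ∀ (l : Fin 3) (N : R2 k), Inv N →
  Psi G d l N = 0 → N = 0

/-- ORN: the order along the curve does not depend on the chart -/
def T_ORN : Prop := ∀ (k : Type) [Field k] [IsAlgClosed k] [CharZero k]
  (G : MvPolynomial (Fin 3) k) (d : ℕ), Ird G d → ∀ (e n M : ℕ)
  (N : R2 k), BHN e n N → ∀ l l', gp G ^ M ∣ Psi G d l N → gp G ^ M ∣ Psi G d l' N

/-- MUN: change of the denominator -/
def T_MUN : Prop := ∀ (k : Type) [Field k] [IsAlgClosed k] [CharZero k]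
  (G : MvPolynomial (Fin 3) k) (d : ℕ), Ird G d → ∀ (n M j : ℕ)
  (τ : ℤ) (N : R2 k), N ≠ 0 → (IsSec G d n τ M N ↔ IsSec G d n τ (M + j) (gR G ^ j * N)) ∧
  (IsSec G d n τ M N → IsSec G d n (τ + d) M (gR G * N)) ∧
  ((∃ l, gp G ^ (M + 1) ∣ Psi G d l N) → IsSec G d n τ M N → IsSec G d n (τ - d) (M + 1) N)

/-- GDN: the derivative with respect to `w` -/
def T_GDN : Prop := ∀ (k : Type) [Field k] [IsAlgClosed k] [CharZero k]
  (G : MvPolynomial (Fin 3) k) (d : ℕ), 1 ≤ d → G.IsHomogeneous d → ∀ (n M : ℕ)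
  (τ : ℤ) (N : R2 k), IsSec G d (n + 3) τ M N →
  IsSec G d n (τ + d - 3) M (gR G * Polynomial.derivative N)

/-- DVN: division by a factor of weight `m`, order `m'` along the curve and twist `- a` -/
def T_DVN : Prop := ∀ (k : Type) [Field k] [IsAlgClosed k] [CharZero k]
  (G : MvPolynomial (Fin 3) k) (d : ℕ), Ird G d →
  ∀ (e m M' : ℕ) (P : R2 k), BHN e m P → ¬ gp G ^ (M' + 1) ∣ Psi G d 0 P →
  gp G ^ M' ∣ Psi G d 0 P → ∀ (n M : ℕ) (τ : ℤ) (N : R2 k), N ≠ 0 → IsSec G d n τ M (P * N) →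
  m ≤ n ∧ IsSec G d (n - m) (τ - ((e : ℤ) + m - d * M')) M (gR G ^ M' * N)

/-- INN: sections are regular at the places of a curve where a derivative of `G` does not vanish,
if the derivation is logarithmic -/
def T_INN : Prop := ∀ (k K : Type) [Field k] [IsAlgClosed k] [CharZero k] [Field K] [Algebra k K]
  (G : MvPolynomial (Fin 3) k) (d : ℕ), 1 ≤ d → G.IsHomogeneous d →
  ∀ (v : DV k K) (θ : Derivation k K K) (x : Fin 3 → K),
  (∀ z : K, 0 ≤ v.ord z → ge v 0 (θ z)) → (∀ i, 0 ≤ v.ord (x i)) →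
  (∃ l, gr G x l ≠ 0 ∧ v.ord (gr G x l) = 0) → aeval x G ≠ 0 →
  ge v 0 (θ (aeval x G) / aeval x G) → ∀ (n M : ℕ) (τ : ℤ) (N : R2 k), IsSec G d n τ M N →
  ge v 0 (evc θ x N / aeval x G ^ M)

/-! ### Leading coefficients, restriction to lines -/

/-- SME: the elements of `SJ` -/
def T_SME : Prop := ∀ (k : Type) [Field k] [IsAlgClosed k] [CharZero k]
  (G : MvPolynomial (Fin 3) k) (d : ℕ), 1 ≤ d → G.IsHomogeneous d → G ≠ 0 → ∀ (i : ℕ) (t : ℤ)
  (f : F2 k), f ∈ SJ G d i t ↔ ∃ (M : ℕ) (c : A2 k), IsSec G d i t M (Polynomial.C c) ∧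
    gF G ^ M * f = algebraMap (A2 k) (F2 k) c

/-- LCO: the leading coefficients of sections -/
def T_LCO : Prop := ∀ (k : Type) [Field k] [IsAlgClosed k] [CharZero k]
  (G : MvPolynomial (Fin 3) k) (d : ℕ), 1 ≤ d → G.IsHomogeneous d → G ≠ 0 →
  ∀ (n M : ℕ) (τ : ℤ) (N : R2 k), IsSec G d n τ M N → ∀ J, 3 * J ≤ n →
  (∀ j, J < j → N.coeff j = 0) →
  (sec G M N).coeff J * gF G ^ J ∈ SJ G d (n - 3 * J) (τ + ((d : ℤ) - 3) * J)

/-- the line through `a` and `b` is transversal to the curve `G = 0`, `a` is not on the curve -/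
structure Trl {k : Type} [Field k] (G : MvPolynomial (Fin 3) k) (a b : Fin 3 → k) : Prop where
  ind : cr a b ≠ 0
  off : eval a G ≠ 0
  tr : ∀ s u : k, eval (s • a + u • b) G = 0 → s • a + u • b ≠ 0 →
    dp (gr G (s • a + u • b)) a ≠ 0

/-- TLN: transversal lines exist -/
def T_TLN : Prop := ∀ (k : Type) [Field k] [IsAlgClosed k] [CharZero k]
  (G : MvPolynomial (Fin 3) k) (d : ℕ), 1 ≤ d → G.IsHomogeneous d → Squarefree G →
  ∃ a b : Fin 3 → k, Trl G a b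

/-- polynomials in the coordinates `s`, `u` of the line -/
abbrev LL (k : Type) [Field k] : Type := MvPolynomial (Fin 2) k

/-- restriction to the line `x = s a + u b`, in the directions `y = a + η n` -/
noncomputable def rho {k : Type} [Field k] (a b n : Fin 3 → k) : A2 k →ₐ[k] Polynomial (LL k) :=
  aeval (Sum.elim
    (fun i => Polynomial.C (C (a i) * X 0 + C (b i) * X 1))
    (fun i => Polynomial.C (C (a i)) + Polynomial.C (C (n i)) * Polynomial.X))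

/-- the form `G` on the line -/
noncomputable def gL {k : Type} [Field k] (G : MvPolynomial (Fin 3) k) (a b : Fin 3 → k) : LL k :=
  aeval (fun i => (C (a i) * X 0 + C (b i) * X 1 : LL k)) G

/-- LRA: the coefficients of the restriction, divisibility by `u` -/
def T_LRA : Prop := ∀ (k : Type) [Field k] [CharZero k] (a b n : Fin 3 → k) (e i : ℕ) (c : A2 k),
  BH e i c → dv c = 0 → ∀ r, r ≤ i → ((rho a b n c).coeff r).IsHomogeneous e ∧
  (X 1 : LL k) ^ (i - r) ∣ (rho a b n c).coeff r ∧ ∀ r, i < r → (rho a b n c).coeff r = 0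

/-- LRB: divisibility of the first coefficient by powers of `G` -/
def T_LRB : Prop := ∀ (k : Type) [Field k] [IsAlgClosed k] [CharZero k]
  (G : MvPolynomial (Fin 3) k) (d : ℕ), 1 ≤ d → G.IsHomogeneous d → Squarefree G →
  ∀ a b n : Fin 3 → k, Trl G a b → Squarefree (gL G a b) ∧ ¬ (X 1 : LL k) ∣ gL G a b ∧
  gL G a b ≠ 0 ∧ ∀ (i M : ℕ) (t : ℤ) (c : A2 k), IsSec G d i t M (Polynomial.C c) → ∀ r, r ≤ i →
  (∀ r', r' < r → (rho a b n c).coeff r' = 0) →
  gL G a b ^ M ∣ gL G a b ^ (i - r) * (rho a b n c).coeff r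

/-- LRC: sections which vanish on the line -/
def T_LRC : Prop := ∀ (k : Type) [Field k] [IsAlgClosed k] [CharZero k]
  (G : MvPolynomial (Fin 3) k) (d : ℕ), 1 ≤ d → G.IsHomogeneous d → Squarefree G →
  ∀ a b n : Fin 3 → k, Trl G a b → dt a b n ≠ 0 → ∀ (i M : ℕ) (t : ℤ) (c : A2 k), c ≠ 0 →
  IsSec G d i t M (Polynomial.C c) → rho a b n c = 0 →
  ∃ c' : A2 k, c = dp (fun i => C (cr a b i)) xa * c' ∧
    IsSec G d i (t - 1) M (Polynomial.C c')

/-- LRM: restriction to the line as a linear map -/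
def T_LRM : Prop := ∀ (k : Type) [Field k] [IsAlgClosed k] [CharZero k]
  (G : MvPolynomial (Fin 3) k) (d : ℕ), 1 ≤ d → G.IsHomogeneous d → Squarefree G →
  ∀ a b n : Fin 3 → k, Trl G a b → ∀ (i : ℕ) (t : ℤ) (r : ℕ),
  ∃ φ : SJ G d i t →ₗ[k] FractionRing (LL k), ∀ (f : SJ G d i t) (M : ℕ) (c : A2 k),
    IsSec G d i t M (Polynomial.C c) → gF G ^ M * (f : F2 k) = algebraMap (A2 k) (F2 k) c →
    algebraMap (LL k) (FractionRing (LL k)) (gL G a b) ^ M * φ f =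
      algebraMap (LL k) (FractionRing (LL k)) ((rho a b n c).coeff r)

/-- number of parameters of the restrictions to a line -/
def jd (d i : ℕ) (t : ℤ) : ℕ :=
  ∑ j ∈ Finset.range (i + 1), ((j : ℤ) * ((d : ℤ) - 1) - i + t + 1).toNat

/-- upper bound for `SJ` -/
def ubs (d i : ℕ) (t : ℤ) : ℕ := ∑ s ∈ Finset.range (t + 1).toNat, jd d i s

/-- upper bound for `E` -/
def ubn (d n : ℕ) (τ : ℤ) : ℕ :=
  ∑ J ∈ Finset.range (n / 3 + 1), ubs d (n - 3 * J) (τ + ((d : ℤ) - 3) * J)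

/-- LRS: the dimension inequality for the restriction to a line -/
def T_LRS : Prop := ∀ (k : Type) [Field k] [IsAlgClosed k] [CharZero k]
  (G : MvPolynomial (Fin 3) k) (d : ℕ), 1 ≤ d → G.IsHomogeneous d → Squarefree G →
  ∀ (i : ℕ) (t : ℤ), Module.Finite k (SJ G d i (t - 1)) →
  Module.Finite k (SJ G d i t) ∧
    Module.finrank k (SJ G d i t) ≤ Module.finrank k (SJ G d i (t - 1)) + jd d i t

/-- LUB: upper bound for `SJ` if there are no sections of degree 0 in `w` and negative twist -/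
def T_LUB : Prop := ∀ (k : Type) [Field k] [IsAlgClosed k] [CharZero k]
  (G : MvPolynomial (Fin 3) k) (d : ℕ), 1 ≤ d → G.IsHomogeneous d → Squarefree G → Str G d →
  ∀ (i : ℕ) (t : ℤ), Module.Finite k (SJ G d i t) ∧ Module.finrank k (SJ G d i t) ≤ ubs d i t

/-- EUN: upper bound for `E` -/
def T_EUN : Prop := ∀ (k : Type) [Field k] [IsAlgClosed k] [CharZero k]
  (G : MvPolynomial (Fin 3) k) (d : ℕ), 1 ≤ d → G.IsHomogeneous d → Squarefree G → Str G d →
  ∀ (n : ℕ) (τ : ℤ), Module.Finite k (E G d n τ) ∧ Module.finrank k (E G d n τ) ≤ ubn d n τ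

/-! ### Specialisation -/

/-- MRK: the rank of a matrix does not increase under specialisation -/
def T_MRK : Prop := ∀ (k K : Type) [Field k] [Field K] [Algebra k K] (t : K), Transcendental k t →
  ∀ (m n : ℕ) (A : Matrix (Fin m) (Fin n) (Polynomial k)),
  (A.map (Polynomial.eval 0)).rank ≤ (A.map (Polynomial.aeval t)).rank

/-- GSM: a general member of a pencil is smooth -/
def T_GSM : Prop := ∀ (k : Type) [Field k] [IsAlgClosed k] [CharZero k]
  (G : MvPolynomial (Fin 3) k) (d : ℕ), 1 ≤ d → G.IsHomogeneous d →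
  ∃ (K : Type) (_ : Field K) (_ : Algebra k K) (_ : IsAlgClosed K) (_ : CharZero K) (t : K)
    (H : MvPolynomial (Fin 3) k), Transcendental k t ∧ H.IsHomogeneous d ∧
    Smooth (MvPolynomial.map (algebraMap k K) G + C t * MvPolynomial.map (algebraMap k K) H) d

/-- PFA: the substitutions for a pencil -/
def T_PFA : Prop := ∀ (k K : Type) [Field k] [Field K] [Algebra k K] (t : K)
  (G H : MvPolynomial (Fin 3) k) (d : ℕ) (l : Fin 3), ∃ Φ : R2 k →+* Polynomial (P2 k),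
  (∀ N, (Φ N).eval 0 = Psi G d l N) ∧ ∀ N, Polynomial.eval₂
    (Polynomial.mapRingHom (MvPolynomial.map (σ := Fin 3 ⊕ Fin 2) (algebraMap k K)))
    (Polynomial.C (C t)) (Φ N) =
    Psi (MvPolynomial.map (algebraMap k K) G + C t * MvPolynomial.map (algebraMap k K) H) d l
      (Polynomial.map (MvPolynomial.map (algebraMap k K)) N)

/-- SP2: specialisation of the spaces of numerators -/
def T_SP2 : Prop := ∀ (k K : Type) [Field k] [Field K] [Algebra k K] [CharZero k] (t : K),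
  Transcendental k t → ∀ (G H : MvPolynomial (Fin 3) k) (d e n M : ℕ), G ≠ 0 →
  G.IsHomogeneous d → H.IsHomogeneous d → Module.Finite k (WS G d e n M) ∧
  Module.finrank K (WS (MvPolynomial.map (algebraMap k K) G +
    C t * MvPolynomial.map (algebraMap k K) H) d e n M) ≤ Module.finrank k (WS G d e n M)

/-- SP1: common denominators -/
def T_SP1 : Prop := ∀ (k : Type) [Field k] [IsAlgClosed k] [CharZero k]
  (G : MvPolynomial (Fin 3) k) (d : ℕ), 2 ≤ d → Smooth G d → ∀ (n : ℕ) (τ : ℤ),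
  ∃ M e : ℕ, (e : ℤ) = τ - n + d * M ∧ Module.finrank k (E G d n τ) ≤
    Module.finrank k (WS G d e n M)

/-- SP3: sections with a given denominator -/
def T_SP3 : Prop := ∀ (k : Type) [Field k] [IsAlgClosed k] [CharZero k]
  (G : MvPolynomial (Fin 3) k) (d : ℕ), 1 ≤ d → G.IsHomogeneous d → G ≠ 0 →
  ∀ (n : ℕ) (τ : ℤ) (M e : ℕ), (e : ℤ) = τ - n + d * M → Module.Finite k (WS G d e n M) →
  ∃ V : Submodule k (Polynomial (F2 k)), V ≤ E G d n τ ∧ Module.Finite k V ∧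
    Module.finrank k (WS G d e n M) ≤ Module.finrank k V

/-- LBS: lower bound for the space of sections, every form -/
def T_LBS : Prop := ∀ (k : Type) [Field k] [IsAlgClosed k] [CharZero k]
  (G : MvPolynomial (Fin 3) k) (d : ℕ), 2 ≤ d → G.IsHomogeneous d → G ≠ 0 → ∃ e1 : ℕ,
  ∀ (n I : ℕ) (τ : ℤ), (n : ℤ) + e1 ≤ τ + I * d → ∃ V : Submodule k (Polynomial (F2 k)),
  V ≤ E G d n τ ∧ Module.Finite k V ∧ ub d n (τ + I * d) ≤
    Module.finrank k V + ∑ i ∈ Finset.range I, cb d n (τ + (i + 1) * d)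

/-! ### Numerical estimates -/

/-- NA -/
def T_NA : Prop := ∀ d e1 : ℕ, 4 ≤ d → ∃ C : ℝ, ∀ m : ℕ, 1 ≤ m →
  (4 * (d : ℝ) ^ 2 - 3 * d) / 648 * (36 * d * m) ^ 4 - C * (m : ℝ) ^ 3 ≤
    (ub d (36 * d * m) ((36 * d * m + d * e1 : ℕ) : ℤ) : ℝ)

/-- NB -/
def T_NB : Prop := ∀ d : ℕ, 10 ≤ d → ∃ C : ℝ, ∀ (N n : ℕ) (τ : ℤ), 1 ≤ N → n ≤ N → 0 ≤ τ →
  τ ≤ d → (ubn d n τ : ℝ) ≤ (4 * ((d : ℝ) - 3) ^ 2 + 1) / 648 * (N : ℝ) ^ 4 + C * (N : ℝ) ^ 3

/-- NC -/
def T_NC : Prop := ∀ d e1 : ℕ, 5 ≤ d → ∃ C : ℝ, ∀ m : ℕ, 1 ≤ m →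
  ((∑ i ∈ Finset.range ((d + 33) * m + e1), cb d (36 * d * m)
    (-(((d - 3) * d * m : ℕ) : ℤ) + ((i : ℤ) + 1) * d) : ℕ) : ℝ) ≤
  (54 * (1 - (((d : ℝ) - 3) / 36) ^ 2) + 48 * (d - 3) * (1 + ((d : ℝ) - 3) / 36)) / 648 *
    (36 * d * m) ^ 4 + (d - 3) ^ 2 * (d : ℝ) ^ 4 * (m : ℝ) ^ 4 + C * (m : ℝ) ^ 3

/-- ND -/
def T_ND : Prop := ∀ d : ℕ, 140 ≤ d → ∀ e1 : ℕ, ∃ m : ℕ, 1 ≤ m ∧ ∀ (n : ℕ) (τ : ℤ),
  n ≤ 32 * d * m → 0 ≤ τ → τ ≤ d →
  ∑ i ∈ Finset.range ((d + 33) * m + e1), cb d (36 * d * m)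
    (-(((d - 3) * d * m : ℕ) : ℤ) + ((i : ℤ) + 1) * d) + ubn d n τ <
  ub d (36 * d * m) ((36 * d * m + d * e1 : ℕ) : ℤ)

end Pool.Agent.H84.ND
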