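import Pool.Agent.H84.ND.Targets3
import Pool.Agent.H84.SL.XPR

/-!
# MP_70ba79_ag: targets of the board `ndc_modules`, part 4: degree of the map, orbifold curves,
affine varieties over products, for plane curves with normal crossings
-/

set_option autoImplicit false

namespace Pool.Agent.H84.ND

open MvPolynomial SC Pool.Agent.H27.LV Pool.Agent.H84.SM
open Pool.Agent.H84.SL (pd GenFinP)

/-! ### Singular points -/

/-- FSG: the curve has finitely many singular points -/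
def T_FSG : Prop := ∀ (k : Type) [Field k] [IsAlgClosed k] [CharZero k]
  (G : MvPolynomial (Fin 3) k) (d : ℕ), 1 ≤ d → G.IsHomogeneous d → Squarefree G →
  ∃ T : Finset (Fin 3 → k), (∀ s ∈ T, Sing G s) ∧
    ∀ s, Sing G s → ∃ s' ∈ T, ∃ c : k, c ≠ 0 ∧ s = c • s'

/-- SNX: singular points over extension fields -/
def T_SNX : Prop := ∀ (k : Type) [Field k] [IsAlgClosed k] [CharZero k]
  (G : MvPolynomial (Fin 3) k) (d : ℕ), 1 ≤ d → G.IsHomogeneous d → Squarefree G →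
  ∀ (L : Type) [Field L] [Algebra k L] (a : Fin 3 → L), a ≠ 0 →
  (∀ i, aeval a (pderiv i G) = 0) → ∃ (s : Fin 3 → k) (c : L), Sing G s ∧ c ≠ 0 ∧
  ∀ i, a i = c * algebraMap k L (s i)

/-! ### Curves which are not of log general type -/

/-- P1N: parametrisation by polynomials -/
def T_P1N : Prop := ∀ (k : Type) [Field k] [IsAlgClosed k] [CharZero k]
  (G : MvPolynomial (Fin 3) k) (d : ℕ), 1 ≤ d → G.IsHomogeneous d →
  ∀ (K : Type) [Field K] [Algebra k K] [Algebra.EssFiniteType k K], Algebra.trdeg k K = 1 →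
  ∀ (D : Derivation k K K), D ≠ 0 → ∀ (x : Fin 3 → K) (S : Finset (DV k K)), Prim k x →
  Crv G d x S → canDeg D + S.card ≤ 0 → ∃ (p : Fin 3 → Polynomial k) (t z : K) (c : k) (m : ℕ),
  z ≠ 0 ∧ c ≠ 0 ∧ (∀ i, x i = z * Polynomial.aeval t (p i)) ∧ 1 ≤ deg k x ∧
  (∀ i, (p i).natDegree ≤ deg k x) ∧ (∃ i, (p i).coeff (deg k x) ≠ 0) ∧
  (∃ i, (p i).coeff 0 ≠ 0) ∧ aeval p G = Polynomial.C c * Polynomial.X ^ m

/-- GNN: divisibility of the determinant of a family of curves at a point of `C` -/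
def T_GNN : Prop := ∀ (k : Type) [Field k] [IsAlgClosed k] [CharZero k]
  (G : MvPolynomial (Fin 3) k) (d : ℕ), 1 ≤ d → G.IsHomogeneous d →
  (∀ s, Sing G s → Node G s) →
  ∀ (L M : Type) [Field L] [Algebra k L] [Field M] [Algebra L M] [Algebra k M]
  [IsScalarTower k L M] (δ : Derivation k L M) (P : Fin 3 → Polynomial L) (c : L) (m : ℕ),
  c ≠ 0 → (∃ i, (P i).coeff 0 ≠ 0) → aeval P G = Polynomial.C c * Polynomial.X ^ m →
  Polynomial.X ^ m ∣ dt (fun i => (P i).map (algebraMap L M)) (fun i => pd δ (P i))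
    (fun i => Polynomial.X * (Polynomial.derivative (P i)).map (algebraMap L M))

/-- GLN: a family of curves `G(P(T)) = c T ^ m` does not move -/
def T_GLN : Prop := ∀ (k : Type) [Field k] [IsAlgClosed k] [CharZero k]
  (G : MvPolynomial (Fin 3) k) (d : ℕ), 4 ≤ d → G.IsHomogeneous d →
  (∀ s, Sing G s → Node G s) →
  ∀ (L : Type) [Field L] [Algebra k L] (P : Fin 3 → Polynomial L) (c : L) (m e : ℕ),
  c ≠ 0 → 1 ≤ e → (∀ i, (P i).natDegree ≤ e) → (∃ i, (P i).coeff e ≠ 0) →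
  (∃ i, (P i).coeff 0 ≠ 0) → aeval P G = Polynomial.C c * Polynomial.X ^ m →
  ∃ (N : ℕ) (Ψ : MvPolynomial (Fin 3) k), Ψ ≠ 0 ∧ Ψ.IsHomogeneous N ∧ aeval P Ψ = 0

/-- FLN: finitely many families -/
def T_FLN : Prop := ∀ (k : Type) [Field k] [IsAlgClosed k] [CharZero k]
  (G : MvPolynomial (Fin 3) k) (d : ℕ), 4 ≤ d → G.IsHomogeneous d →
  (∀ s, Sing G s → Node G s) → ∀ e m : ℕ, 1 ≤ e →
  ∃ (N : ℕ) (Ψ : MvPolynomial (Fin 3) k), Ψ ≠ 0 ∧ Ψ.IsHomogeneous N ∧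
  ∀ (p : Fin 3 → Polynomial k) (c : k), c ≠ 0 → (∀ i, (p i).natDegree ≤ e) →
  (∃ i, (p i).coeff e ≠ 0) → (∃ i, (p i).coeff 0 ≠ 0) →
  aeval p G = Polynomial.C c * Polynomial.X ^ m → aeval p Ψ = 0

/-- X1N: the curves of bounded degree which are not of log general type -/
def T_X1N : Prop := ∀ (k : Type) [Field k] [IsAlgClosed k] [CharZero k]
  (G : MvPolynomial (Fin 3) k) (d : ℕ), 4 ≤ d → G.IsHomogeneous d →
  (∀ s, Sing G s → Node G s) → ∀ e0 : ℕ,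
  ∃ (N : ℕ) (Ψ : MvPolynomial (Fin 3) k), Ψ ≠ 0 ∧ Ψ.IsHomogeneous N ∧
  ∀ (K : Type) [Field K] [Algebra k K] [Algebra.EssFiniteType k K], Algebra.trdeg k K = 1 →
  ∀ (D : Derivation k K K), D ≠ 0 → ∀ (x : Fin 3 → K) (S : Finset (DV k K)), Prim k x →
  Crv G d x S → deg k x ≤ e0 → canDeg D + S.card ≤ 0 → aeval x Ψ = 0

/-! ### Degree of the map, orbifold curves -/

section Forms

variable {k : Type} [Field k]

/-- strong form: outside a curve `Ψ = 0` the degree of the map is at most `B χ` -/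
def Sfm (G : MvPolynomial (Fin 3) k) (d : ℕ) : Prop := ∃ (B N : ℕ)
  (Ψ : MvPolynomial (Fin 3) k), Ψ ≠ 0 ∧ Ψ.IsHomogeneous N ∧
  ∀ (K : Type) [Field K] [Algebra k K] [Algebra.EssFiniteType k K], Algebra.trdeg k K = 1 →
  ∀ (D : Derivation k K K), D ≠ 0 → ∀ (x : Fin 3 → K) (S : Finset (DV k K)), Crv G d x S →
  aeval x Ψ ≠ 0 → (∃ i, x i ∉ Set.range (algebraMap k K)) →
  1 ≤ canDeg D + S.card ∧ deg k x ≤ B * (canDeg D + S.card)

/-- outside `S` the curve `x` does not meet `G = 0` or has contact of order at least `m` -/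
structure Crm {K : Type} [Field K] [Algebra k K] (G : MvPolynomial (Fin 3) k) (d m : ℕ)
    (x : Fin 3 → K) (S : Finset (DV k K)) : Prop where
  one : ∃ j, x j = 1
  ne : aeval x G ≠ 0
  off : ∀ v, v ∉ S → v.ord (aeval x G) = -(d * poleOrder v x) ∨
    (m : ℤ) - d * poleOrder v x ≤ v.ord (aeval x G)

/-- strong form for orbifold curves -/
def Sfo (G : MvPolynomial (Fin 3) k) (d : ℕ) : Prop := ∃ (B m N : ℕ)
  (Ψ : MvPolynomial (Fin 3) k), Ψ ≠ 0 ∧ Ψ.IsHomogeneous N ∧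
  ∀ (K : Type) [Field K] [Algebra k K] [Algebra.EssFiniteType k K], Algebra.trdeg k K = 1 →
  ∀ (D : Derivation k K K), D ≠ 0 → ∀ (x : Fin 3 → K) (S : Finset (DV k K)), Crm G d m x S →
  aeval x Ψ ≠ 0 → (∃ i, x i ∉ Set.range (algebraMap k K)) →
  1 ≤ canDeg D + S.card ∧ deg k x ≤ B * (canDeg D + S.card)

end Forms

/-- FBN: degree of the map -/
def T_FBN : Prop := ∀ (k : Type) [Field k] [IsAlgClosed k] [CharZero k]
  (G : MvPolynomial (Fin 3) k) (d : ℕ), 4 ≤ d → G.IsHomogeneous d →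
  (∀ s, Sing G s → Node G s) → Cnl G d → Sfm G d

/-- ORB: from curves in the complement to orbifold curves -/
def T_ORB : Prop := ∀ (k : Type) [Field k] [IsAlgClosed k] [CharZero k]
  (G : MvPolynomial (Fin 3) k) (d : ℕ), 1 ≤ d → G.IsHomogeneous d → Sfm G d → Sfo G d

/-- GCO: arbitrary homogeneous coordinates, degree of the image -/
def T_GCO : Prop := ∀ (k : Type) [Field k] [IsAlgClosed k] [CharZero k]
  (G : MvPolynomial (Fin 3) k) (d : ℕ), 1 ≤ d → G.IsHomogeneous d → Sfo G d →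
  ∃ (B m N : ℕ) (Ψ : MvPolynomial (Fin 3) k), Ψ ≠ 0 ∧ Ψ.IsHomogeneous N ∧
  ∀ (K : Type) [Field K] [Algebra k K] [Algebra.EssFiniteType k K], Algebra.trdeg k K = 1 →
  ∀ (D : Derivation k K K), D ≠ 0 → ∀ (x : Fin 3 → K) (S : Finset (DV k K)), aeval x G ≠ 0 →
  (∀ v, v ∉ S → ∃ j, x j ≠ 0 ∧ (∀ i, x i ≠ 0 → v.ord (x j) ≤ v.ord (x i)) ∧
    (v.ord (aeval x G) = d * v.ord (x j) ∨ d * v.ord (x j) + m ≤ v.ord (aeval x G))) →
  (∃ (e : ℕ) (Φ : MvPolynomial (Fin 3) k), (e : ℤ) ≤ B * max 1 (canDeg D + S.card) ∧ Φ ≠ 0 ∧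
    Φ.IsHomogeneous e ∧ aeval x Φ = 0) ∧
  (aeval x Ψ ≠ 0 → (∃ i j, x j ≠ 0 ∧ x i / x j ∉ Set.range (algebraMap k K)) →
    1 ≤ canDeg D + S.card ∧
    ∀ j, x j ≠ 0 → deg k (fun i => x i / x j) ≤ B * (canDeg D + S.card))

/-- FCO: the curves in an affine variety with a morphism to the plane such that the inverse image of
`G = 0` has multiplicities at least `m` -/
def T_FCO : Prop := ∀ (k K : Type) [Field k] [IsAlgClosed k] [CharZero k] [Field K] [Algebra k K]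
  (G : MvPolynomial (Fin 3) k) (d m : ℕ), G.IsHomogeneous d → ∀ (σ : Type)
  (P : Ideal (MvPolynomial σ k)) (φ : Fin 3 → MvPolynomial σ k) (r : ℕ)
  (J : Fin r → Ideal (MvPolynomial σ k)) (ε : Fin r → ℕ), (∀ a, m ≤ ε a) →
  Ideal.span {aeval φ G} ⊔ P = (Ideal.span (Set.range φ) ^ d * ∏ a, J a ^ ε a) ⊔ P →
  ∀ (S : Finset (DV k K)) (z : σ → K), (∀ p ∈ P, aeval z p = 0) →
  (∀ v, v ∉ S → ∀ j, 0 ≤ v.ord (z j)) → ∀ Z : Fin 3 → K, (∀ j, Z j = aeval z (φ j)) →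
  aeval Z G ≠ 0 → ∀ j0 : Fin 3, Z j0 ≠ 0 → Crm G d m (fun j => (Z j0)⁻¹ * Z j) S

/-- XPO: affine varieties over products of orbifold planes -/
def T_XPO : Prop := ∀ (k : Type) [Field k] [IsAlgClosed k] [CharZero k] (ι : Type) [Fintype ι]
  [DecidableEq ι] [Nonempty ι] (G : ι → MvPolynomial (Fin 3) k) (d : ι → ℕ), (∀ i, 1 ≤ d i) →
  (∀ i, (G i).IsHomogeneous (d i)) → (∀ i, Sfo (G i) (d i)) →
  ∃ (Ψ : ι → MvPolynomial (Fin 3) k) (m : ι → ℕ), (∀ i, Ψ i ≠ 0 ∧ ∃ N, (Ψ i).IsHomogeneous N) ∧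
  ∀ (σ : Type) [Fintype σ] (P : Ideal (MvPolynomial σ k)) (φ : ι → Fin 3 → MvPolynomial σ k),
  P.IsPrime → (∀ i, (∃ j, φ i j ∉ P) ∧ aeval (φ i) (Ψ i) ∉ P) → GenFinP P φ →
  (∀ i, aeval (φ i) (G i) ∉ P) →
  (∀ i, ∃ (r : ℕ) (J : Fin r → Ideal (MvPolynomial σ k)) (ε : Fin r → ℕ), (∀ a, m i ≤ ε a) ∧
    Ideal.span {aeval (φ i) (G i)} ⊔ P =
      (Ideal.span (Set.range (φ i)) ^ d i * ∏ a, J a ^ ε a) ⊔ P) →
  ∃ (h : MvPolynomial σ k) (B : ℕ), h ∉ P ∧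
    DegreeBound k (P : Set (MvPolynomial σ k)) h (fun χ => B * χ)

end Pool.Agent.H84.ND
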