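import Pool.Agent.H1.ND.NEV
import Pool.Agent.H1.ND.SCN
import Pool.Agent.H10.ND.P1N
import Pool.Agent.H10.ND.X1N
import Pool.Agent.H11.ND.LRS
import Pool.Agent.H13.ND.FSG
import Pool.Agent.H13.ND.NGR
import Pool.Agent.H17.ND.SEE
import Pool.Agent.H17.ND.SSG
import Pool.Agent.H18.ND.BAN
import Pool.Agent.H18.ND.BMN
import Pool.Agent.H18.ND.BRN
import Pool.Agent.H18.ND.FCO
import Pool.Agent.H19.ND.FLN
import Pool.Agent.H19.ND.GLN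
import Pool.Agent.H2.ND.PSO
import Pool.Agent.H21.ND.LCN
import Pool.Agent.H21.ND.NDV
import Pool.Agent.H23.ND.DTD
import Pool.Agent.H23.ND.GRP
import Pool.Agent.H23.ND.HDE
import Pool.Agent.H23.ND.IVA
import Pool.Agent.H26.ND.SEN
import Pool.Agent.H29.ND.BGA
import Pool.Agent.H29.ND.BGC
import Pool.Agent.H29.ND.CSA
import Pool.Agent.H29.ND.DML
import Pool.Agent.H30.ND.ALN
import Pool.Agent.H30.ND.CRF
import Pool.Agent.H30.ND.FIN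
import Pool.Agent.H30.ND.GCO
import Pool.Agent.H30.ND.PSB
import Pool.Agent.H34.ND.SP2
import Pool.Agent.H35.ND.NC
import Pool.Agent.H36.ND.JSA
import Pool.Agent.H36.ND.LRM
import Pool.Agent.H36.ND.SMN
import Pool.Agent.H37.ND.DVN
import Pool.Agent.H37.ND.INN
import Pool.Agent.H39.ND.GPN
import Pool.Agent.H42.ND.BZM
import Pool.Agent.H42.ND.BZN
import Pool.Agent.H42.ND.LRA
import Pool.Agent.H42.ND.LRB
import Pool.Agent.H47.ND.FOG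
import Pool.Agent.H48.ND.FPR
import Pool.Agent.H48.ND.LAP
import Pool.Agent.H48.ND.MAN
import Pool.Agent.H48.ND.NVM
import Pool.Agent.H48.ND.SMU
import Pool.Agent.H49.ND.IDP
import Pool.Agent.H49.ND.NB
import Pool.Agent.H49.ND.RPM
import Pool.Agent.H51.ND.GNN
import Pool.Agent.H51.ND.IDM
import Pool.Agent.H51.ND.IPR
import Pool.Agent.H51.ND.LBA
import Pool.Agent.H54.ND.CPO
import Pool.Agent.H55.ND.BAP
import Pool.Agent.H55.ND.BDN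
import Pool.Agent.H55.ND.FBN
import Pool.Agent.H56.ND.SME
import Pool.Agent.H59.ND.LBP
import Pool.Agent.H59.ND.LRC
import Pool.Agent.H60.ND.FWN
import Pool.Agent.H60.ND.GSM
import Pool.Agent.H60.ND.MRK
import Pool.Agent.H60.ND.NA
import Pool.Agent.H66.ND.EUN
import Pool.Agent.H66.ND.LUB
import Pool.Agent.H68.ND.LCO
import Pool.Agent.H68.ND.TLN
import Pool.Agent.H69.ND.ORN
import Pool.Agent.H70.ND.XPO
import Pool.Agent.H72.ND.PFA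
import Pool.Agent.H73.ND.HVN
import Pool.Agent.H73.ND.SNX
import Pool.Agent.H74.ND.NE
import Pool.Agent.H77.ND.GDN
import Pool.Agent.H77.ND.MUN
import Pool.Agent.H78.ND.CNN
import Pool.Agent.H78.ND.NDN
import Pool.Agent.H78.ND.NSB
import Pool.Agent.H81.ND.S1N
import Pool.Agent.H84.NDX.LBS
import Pool.Agent.H84.NDX.NIN
import Pool.Agent.H85.ND.BEZ
import Pool.Agent.H85.ND.PSN
import Pool.Agent.H88.ND.ND
import Pool.Agent.H90.ND.NLO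
import Pool.Agent.H90.ND.SNG
import Pool.Agent.H92.ND.NCH
import Pool.Agent.H94.ND.SP1
import Pool.Agent.H94.ND.SP3
import Pool.Agent.H95.ND.LIA
import Pool.Agent.H95.ND.PSL
import Pool.Agent.H96.ND.BZL
import Pool.Agent.H96.ND.FTP
import Pool.Agent.H97.ND.SNV
import Pool.Agent.H99.ND.ORB
import Pool.Agent.H99.ND.SQF
import Pool.Agent.H84.SM.All
import Pool.Agent.H84.SL.All
import Pool.Agent.H84.ND.Targets4
import Pool.Agent.H92.ND.TargetsB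

/-!
# MP_70ba79_ag: assembly of the board `ndc_modules`
-/

set_option autoImplicit false

namespace Pool.Agent.H84.ND.A

open Pool.Agent.H84.SM.A Pool.Agent.H84.SL.A

theorem n_SQF : Pool.Agent.H84.ND.T_SQF := Pool.Agent.H99.ND.pf_SQF 

theorem n_SME : Pool.Agent.H84.ND.T_SME := Pool.Agent.H56.ND.pf_SME a_EME

theorem n_LRA : Pool.Agent.H84.ND.T_LRA := Pool.Agent.H42.ND.pf_LRA a_SCL

theorem n_LRB : Pool.Agent.H84.ND.T_LRB := Pool.Agent.H42.ND.pf_LRB a_SCL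

theorem n_LRC : Pool.Agent.H84.ND.T_LRC := Pool.Agent.H59.ND.pf_LRC 

theorem n_LRM : Pool.Agent.H84.ND.T_LRM := Pool.Agent.H36.ND.pf_LRM n_SME

theorem n_TLN : Pool.Agent.H84.ND.T_TLN := Pool.Agent.H68.ND.pf_TLN 

theorem n_LRS : Pool.Agent.H84.ND.T_LRS := Pool.Agent.H11.ND.pf_LRS n_SME n_LRA n_LRB n_LRC n_LRM n_TLN a_LED

theorem n_LUB : Pool.Agent.H84.ND.T_LUB := Pool.Agent.H66.ND.pf_LUB n_LRS n_SME

theorem n_NE : Pool.Agent.H84.ND.T_NE := Pool.Agent.H74.ND.pf_NE 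

theorem n_GRP : Pool.Agent.H92.ND.T_GRP := Pool.Agent.H23.ND.pf_GRP 

theorem n_FPR : Pool.Agent.H92.ND.T_FPR := Pool.Agent.H48.ND.pf_FPR n_GRP

theorem n_BMN : Pool.Agent.H92.ND.T_BMN := Pool.Agent.H18.ND.pf_BMN n_FPR

theorem n_BDN : Pool.Agent.H92.ND.T_BDN := Pool.Agent.H55.ND.pf_BDN n_FPR n_BMN

theorem n_NVM : Pool.Agent.H92.ND.T_NVM := Pool.Agent.H48.ND.pf_NVM 

theorem n_SNV : Pool.Agent.H92.ND.T_SNV := Pool.Agent.H97.ND.pf_SNV 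

theorem n_SMU : Pool.Agent.H92.ND.T_SMU := Pool.Agent.H48.ND.pf_SMU 

theorem n_SSG : Pool.Agent.H92.ND.T_SSG := Pool.Agent.H17.ND.pf_SSG 

theorem n_SEE : Pool.Agent.H92.ND.T_SEE := Pool.Agent.H17.ND.pf_SEE n_SMU n_SNV n_SSG

theorem n_NCH : Pool.Agent.H84.ND.T_NCH := Pool.Agent.H92.ND.pf_NCH 

theorem n_HDE : Pool.Agent.H92.ND.T_HDE := Pool.Agent.H23.ND.pf_HDE n_NCH

theorem n_HVN : Pool.Agent.H92.ND.T_HVN := Pool.Agent.H73.ND.pf_HVN 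

theorem n_IDM : Pool.Agent.H92.ND.T_IDM := Pool.Agent.H51.ND.pf_IDM 

theorem n_LIA : Pool.Agent.H92.ND.T_LIA := Pool.Agent.H95.ND.pf_LIA 

theorem n_PSL : Pool.Agent.H92.ND.T_PSL := Pool.Agent.H95.ND.pf_PSL 

theorem n_IVA : Pool.Agent.H92.ND.T_IVA := Pool.Agent.H23.ND.pf_IVA 

theorem n_RPM : Pool.Agent.H92.ND.T_RPM := Pool.Agent.H49.ND.pf_RPM 

theorem n_PSB : Pool.Agent.H92.ND.T_PSB := Pool.Agent.H30.ND.pf_PSB n_IVA n_RPM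

theorem n_DTD : Pool.Agent.H92.ND.T_DTD := Pool.Agent.H23.ND.pf_DTD n_GRP

theorem n_PSO : Pool.Agent.H92.ND.T_PSO := Pool.Agent.H2.ND.pf_PSO n_DTD n_IVA n_RPM

theorem n_IPR : Pool.Agent.H92.ND.T_IPR := Pool.Agent.H51.ND.pf_IPR 

theorem n_IDP : Pool.Agent.H92.ND.T_IDP := Pool.Agent.H49.ND.pf_IDP n_PSL n_PSB n_PSO n_IPR

theorem n_LBA : Pool.Agent.H92.ND.T_LBA := Pool.Agent.H51.ND.pf_LBA n_BDN n_NVM n_SNV n_SEE n_HDE n_HVN n_IDM n_LIA n_IDP n_SME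

theorem n_FWN : Pool.Agent.H84.ND.T_FWN := Pool.Agent.H60.ND.pf_FWN n_LUB n_NE n_LBA

theorem n_BZL : Pool.Agent.H84.ND.T_BZL := Pool.Agent.H96.ND.pf_BZL 

theorem n_BZM : Pool.Agent.H84.ND.T_BZM := Pool.Agent.H42.ND.pf_BZM 

theorem n_BZN : Pool.Agent.H84.ND.T_BZN := Pool.Agent.H42.ND.pf_BZN n_BZL n_BZM

theorem n_BEZ : Pool.Agent.H84.ND.T_BEZ := Pool.Agent.H85.ND.BEZ.pf_BEZ n_BZN

theorem n_BGA : Pool.Agent.H84.ND.T_BGA := Pool.Agent.H29.ND.pf_BGA n_BEZ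

theorem n_BGC : Pool.Agent.H84.ND.T_BGC := Pool.Agent.H29.ND.pf_BGC n_BGA

theorem n_INN : Pool.Agent.H84.ND.T_INN := Pool.Agent.H37.ND.pf_INN a_JPC a_VAL

theorem n_NDV : Pool.Agent.H84.ND.T_NDV := Pool.Agent.H21.ND.pf_NDV a_SCL a_VAL

theorem n_NGR : Pool.Agent.H84.ND.T_NGR := Pool.Agent.H13.ND.pf_NGR 

theorem n_NEV : Pool.Agent.H84.ND.T_NEV := Pool.Agent.H1.ND.pf_NEV 

theorem n_NIN : Pool.Agent.H84.ND.T_NIN := Pool.Agent.H84.NDX.pf_NIN n_NCH n_NDV n_NGR n_NEV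

theorem n_SCN : Pool.Agent.H84.ND.T_SCN := Pool.Agent.H1.ND.pf_SCN n_INN n_NIN

theorem n_FOG : Pool.Agent.H84.ND.T_FOG := Pool.Agent.H47.ND.pf_FOG a_SCL

theorem n_NSB : Pool.Agent.H84.ND.T_NSB := Pool.Agent.H78.ND.pf_NSB n_SCN n_FOG (Pool.Agent.H3.OD.fo_of Pool.Agent.H92.OD.t3) a_PRM a_DSC a_IMF a_CAN

theorem n_NA : Pool.Agent.H84.ND.T_NA := Pool.Agent.H60.ND.pf_NA 

theorem n_NB : Pool.Agent.H84.ND.T_NB := Pool.Agent.H49.ND.pf_NB 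

theorem n_NC : Pool.Agent.H84.ND.T_NC := Pool.Agent.H35.ND.pf_NC 

theorem n_ND : Pool.Agent.H84.ND.T_ND := Pool.Agent.H88.ND.pf_ND n_NA n_NB n_NC

theorem n_GSM : Pool.Agent.H84.ND.T_GSM := Pool.Agent.H60.ND.pf_GSM 

theorem n_SP1 : Pool.Agent.H84.ND.T_SP1 := Pool.Agent.H94.ND.pf_SP1 a_EUB a_EME a_MUG a_IRR

theorem n_MRK : Pool.Agent.H84.ND.T_MRK := Pool.Agent.H60.ND.pf_MRK 

theorem n_PFA : Pool.Agent.H84.ND.T_PFA := Pool.Agent.H72.ND.pf_PFA 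

theorem n_SP2 : Pool.Agent.H84.ND.T_SP2 := Pool.Agent.H34.ND.pf_SP2 n_MRK n_PFA

theorem n_SP3 : Pool.Agent.H84.ND.T_SP3 := Pool.Agent.H94.ND.pf_SP3 

theorem n_LBS : Pool.Agent.H84.ND.T_LBS := Pool.Agent.H84.NDX.pf_LBS n_GSM n_SP1 n_SP2 n_SP3 a_IRR a_ELB a_CHN

theorem n_LCO : Pool.Agent.H84.ND.T_LCO := Pool.Agent.H68.ND.pf_LCO n_SME

theorem n_EUN : Pool.Agent.H84.ND.T_EUN := Pool.Agent.H66.ND.pf_EUN n_LUB n_LCO a_LED a_EME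

theorem n_NDN : Pool.Agent.H84.ND.T_NDN := Pool.Agent.H78.ND.pf_NDN n_ND n_LBS n_EUN

theorem n_GPN : Pool.Agent.H84.ND.T_GPN := Pool.Agent.H39.ND.pf_GPN 

theorem n_ORN : Pool.Agent.H84.ND.T_ORN := Pool.Agent.H69.ND.pf_ORN n_GPN a_THE

theorem n_DVN : Pool.Agent.H84.ND.T_DVN := Pool.Agent.H37.ND.pf_DVN n_ORN n_GPN a_PSG a_INV a_HOM

theorem n_GDN : Pool.Agent.H84.ND.T_GDN := Pool.Agent.H77.ND.pf_GDN a_PSG

theorem n_SEN : Pool.Agent.H84.ND.T_SEN := Pool.Agent.H26.ND.pf_SEN n_NDN n_DVN n_GDN n_ORN n_GPN n_EUN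

theorem n_FTP : Pool.Agent.H84.ND.T_FTP := Pool.Agent.H96.ND.pf_FTP 

theorem n_NLO : Pool.Agent.H84.ND.T_NLO := Pool.Agent.H90.ND.pf_NLO 

theorem n_JSA : Pool.Agent.H84.ND.T_JSA := Pool.Agent.H36.ND.pf_JSA n_FTP n_NLO

theorem n_CPO : Pool.Agent.H84.ND.T_CPO := Pool.Agent.H54.ND.pf_CPO n_GPN

theorem n_SNG : Pool.Agent.H84.ND.T_SNG := Pool.Agent.H90.ND.pf_SNG 

theorem n_DML : Pool.Agent.H84.ND.T_DML := Pool.Agent.H29.ND.pf_DML 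

theorem n_CSA : Pool.Agent.H84.ND.T_CSA := Pool.Agent.H29.ND.pf_CSA n_GPN n_SNG n_DML a_GPT

theorem n_CNN : Pool.Agent.H84.ND.T_CNN := Pool.Agent.H78.ND.pf_CNN n_JSA n_CPO n_CSA n_ORN n_GPN

theorem n_PSN : Pool.Agent.H84.ND.T_PSN := Pool.Agent.H85.ND.pf_PSN n_GPN a_VAL

theorem n_S1N : Pool.Agent.H84.ND.T_S1N := Pool.Agent.H81.ND.pf_S1N n_SCN n_SEN n_CNN n_PSN n_NDN a_FAC a_ELI a_EME

theorem n_BAP : Pool.Agent.H84.ND.T_BAP := Pool.Agent.H55.ND.pf_BAP a_IFT a_CGE a_CPC a_AFE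

theorem n_LAP : Pool.Agent.H84.ND.T_LAP := Pool.Agent.H48.ND.pf_LAP n_BAP a_BRG a_RAM a_AFE a_CRE a_CEN

theorem n_LBP : Pool.Agent.H84.ND.T_LBP := Pool.Agent.H59.ND.pf_LBP n_BAP

theorem n_BRN : Pool.Agent.H84.ND.T_BRN := Pool.Agent.H18.ND.pf_BRN a_IFT

theorem n_BAN : Pool.Agent.H84.ND.T_BAN := Pool.Agent.H18.ND.pf_BAN a_CGE a_CPC a_AFE

theorem n_LCN : Pool.Agent.H84.ND.T_LCN := Pool.Agent.H21.ND.pf_LCN n_BRN n_BAN a_BRG a_RAM a_AFE a_CRE a_CEN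

theorem n_SMN : Pool.Agent.H84.ND.T_SMN := Pool.Agent.H36.ND.pf_SMN n_LAP n_LBP n_LCN

theorem n_MAN : Pool.Agent.H84.ND.T_MAN := Pool.Agent.H48.ND.pf_MAN n_S1N n_FOG n_SMN (Pool.Agent.H3.OD.fo_of Pool.Agent.H92.OD.t3) a_PRM a_DSC a_IMF a_CAN

theorem n_CRF : Pool.Agent.H84.ND.T_CRF := Pool.Agent.H30.ND.pf_CRF 

theorem n_ALN : Pool.Agent.H84.ND.T_ALN := Pool.Agent.H30.ND.pf_ALN n_SQF n_FWN n_BGC n_NSB n_MAN n_CRF

theorem n_P1N : Pool.Agent.H84.ND.T_P1N := Pool.Agent.H10.ND.pf_P1N 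

theorem n_FSG : Pool.Agent.H84.ND.T_FSG := Pool.Agent.H13.ND.pf_FSG a_FNS

theorem n_SNX : Pool.Agent.H84.ND.T_SNX := Pool.Agent.H73.ND.pf_SNX n_FSG

theorem n_GNN : Pool.Agent.H84.ND.T_GNN := Pool.Agent.H51.ND.pf_GNN n_SNX n_NCH n_SQF

theorem n_GLN : Pool.Agent.H84.ND.T_GLN := Pool.Agent.H19.ND.pf_GLN n_GNN s_DRV s_HNZ

theorem n_FLN : Pool.Agent.H84.ND.T_FLN := Pool.Agent.H19.ND.pf_FLN n_GLN

theorem n_X1N : Pool.Agent.H84.ND.T_X1N := Pool.Agent.H10.ND.pf_X1N n_P1N n_FLN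

theorem n_FBN : Pool.Agent.H84.ND.T_FBN := Pool.Agent.H55.ND.pf_FBN n_X1N s_DGC s_LRH a_PRM

theorem n_FCO : Pool.Agent.H84.ND.T_FCO := Pool.Agent.H18.ND.pf_FCO 

theorem n_FIN : Pool.Agent.H84.ND.T_FIN := Pool.Agent.H30.ND.pf_FIN n_ALN

theorem n_GCO : Pool.Agent.H84.ND.T_GCO := Pool.Agent.H30.ND.pf_GCO a_IMF

theorem n_MUN : Pool.Agent.H84.ND.T_MUN := Pool.Agent.H77.ND.pf_MUN n_ORN n_GPN a_PSG a_INV a_HOM

theorem n_ORB : Pool.Agent.H84.ND.T_ORB := Pool.Agent.H99.ND.pf_ORB 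

theorem n_XPO : Pool.Agent.H84.ND.T_XPO := Pool.Agent.H70.ND.pf_XPO n_FCO

end Pool.Agent.H84.ND.A
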