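import Pool.Agent.H84.SM.Targets
import Pool.Agent.H84.SM.Targets2

/-!
# MP_70ba79_ag: complements of nodal plane curves (board `ndc_modules`), definitions

`G` is an irreducible form of degree `d`. The sections are those of `Pool/Agent/H84/SM/Defs.lean`
(the conditions are at the smooth points of the curve `G = 0`).
-/

set_option autoImplicit false

namespace Pool.Agent.H84.ND

open MvPolynomial SC Pool.Agent.H27.LV Pool.Agent.H84.SM

section Forms

variable {k : Type} [Field k]

/-- irreducible form of degree `d ≥ 2` -/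
structure Ird (G : MvPolynomial (Fin 3) k) (d : ℕ) : Prop where
  two : 2 ≤ d
  hom : G.IsHomogeneous d
  irr : Irreducible G

/-- `s` is a singular point of the curve `G = 0` -/
def Sing (G : MvPolynomial (Fin 3) k) (s : Fin 3 → k) : Prop :=
  s ≠ 0 ∧ ∀ i, eval s (pderiv i G) = 0

/-- `s` is a node of the curve `G = 0`: the kernel of the second derivative is spanned by `s` -/
structure Node (G : MvPolynomial (Fin 3) k) (s : Fin 3 → k) : Prop where
  sing : Sing G s
  ker : ∀ y : Fin 3 → k, (∀ i, ∑ j, eval s (pderiv i (pderiv j G)) * y j = 0) → ∃ c : k, y = c • s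

/-- `G = 0` is an irreducible curve of degree `d`, all singular points are nodes, there are at most
`d ^ 2 / 36` of them -/
structure Nodal (G : MvPolynomial (Fin 3) k) (d : ℕ) : Prop where
  ird : Ird G d
  nod : ∀ s, Sing G s → Node G s
  few : ∃ T : Finset (Fin 3 → k), 36 * T.card ≤ d ^ 2 ∧
    ∀ s, Sing G s → ∃ s' ∈ T, ∃ c : k, s = c • s'

/-- there is no section of degree 0 in `w` and negative twist -/
def Str (G : MvPolynomial (Fin 3) k) (d : ℕ) : Prop :=
  ∀ (n t M : ℕ) (c : A2 k), 1 ≤ t → IsSec G d n (-(t : ℤ)) M (Polynomial.C c) → c = 0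

/-- the sections of degree 0 in `w`, as elements of `F2` -/
noncomputable def SJ (G : MvPolynomial (Fin 3) k) (d i : ℕ) (t : ℤ) : Submodule k (F2 k) :=
  (E G d i t).comap (Polynomial.CAlgHom (R := k) (A := F2 k)).toLinearMap

/-- numerators of sections with the denominator `G ^ M` -/
noncomputable def WS (G : MvPolynomial (Fin 3) k) (d e n M : ℕ) : Submodule k (R2 k) where
  carrier := {N | Inv N ∧ BHN e n N ∧ ∀ l, gp G ^ M ∣ Psi G d l N}
  add_mem' := by
    rintro a b ⟨h1, h2, h3⟩ ⟨h4, h5, h6⟩
    refine ⟨fun j => by rw [Polynomial.coeff_add, map_add, h1 j, h4 j, add_zero], fun j => ⟨?_, ?_⟩,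
      fun l => by rw [map_add]; exact dvd_add (h3 l) (h6 l)⟩
    · intro hj
      rw [Polynomial.coeff_add]
      exact ⟨((h2 j).1 hj).1.add ((h5 j).1 hj).1, ((h2 j).1 hj).2.add ((h5 j).1 hj).2⟩
    · intro hj
      rw [Polynomial.coeff_add, (h2 j).2 hj, (h5 j).2 hj, add_zero]
  zero_mem' := by
    refine ⟨fun j => by simp, fun j => ⟨fun _ => ?_, fun _ => by simp⟩, fun l => by simp⟩
    rw [Polynomial.coeff_zero]
    exact ⟨isWeightedHomogeneous_zero k _ _, isWeightedHomogeneous_zero k _ _⟩
  smul_mem' := by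
    rintro c a ⟨h1, h2, h3⟩
    refine ⟨fun j => by rw [Polynomial.coeff_smul, Derivation.map_smul, h1 j, smul_zero],
      fun j => ⟨?_, ?_⟩, ?_⟩
    · intro hj
      rw [Polynomial.coeff_smul]
      refine ⟨?_, ?_⟩
      · rw [MvPolynomial.smul_eq_C_mul]
        have h := (isWeightedHomogeneous_C wx c).mul ((h2 j).1 hj).1
        rwa [zero_add] at h
      · rw [MvPolynomial.smul_eq_C_mul]
        have h := (isWeightedHomogeneous_C wy c).mul ((h2 j).1 hj).2
        rwa [zero_add] at h
    · intro hj
      rw [Polynomial.coeff_smul, (h2 j).2 hj, smul_zero]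
    · intro l
      have h4 : c • a = Polynomial.C (C c) * a := Algebra.smul_def c a
      rw [h4, map_mul]
      exact (h3 l).mul_left _

end Forms

end Pool.Agent.H84.ND
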