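import Pool.Agent.H84.ND.Targets1
import Pool.Agent.H3.OD.Targets

/-!
# MP_70ba79_ag: targets of the board `ndc_modules`, part 2: second section, connections, nodes,
contact, first theorem
-/

set_option autoImplicit false

namespace Pool.Agent.H84.ND

open MvPolynomial SC Pool.Agent.H27.LV Pool.Agent.H84.SM
open Pool.Agent.H92.OD (HS cf sg uu Lat geO IsO DF DD)

/-! ### Sections at the nodes -/

section Node

variable {k : Type} [Field k]

/-- the direction `y` at a node: `λ r + g (∂_2 G, - ∂_1 G)`, the component number `j` is `0`; the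
variables `inr 0`, `inr 1`, `inr 2` are `λ`, `g`, `z` -/
noncomputable def yn (G : MvPolynomial (Fin 3) k) (j : Fin 3) (r1 r2 : MvPolynomial (Fin 3) k) :
    Fin 3 → A2 k := fun i =>
  if i = j then 0
  else if i = j + 1 then X (Sum.inr 0) * aeval xa r1 + X (Sum.inr 1) * aeval xa (pderiv (j + 2) G)
  else X (Sum.inr 0) * aeval xa r2 - X (Sum.inr 1) * aeval xa (pderiv (j + 1) G)

/-- the derivative in the direction `yn` -/
noncomputable def dn (G : MvPolynomial (Fin 3) k) (j : Fin 3) (r1 r2 : MvPolynomial (Fin 3) k) :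
    Derivation k (A2 k) (A2 k) := mkDerivation k (Sum.elim (yn G j r1 r2) fun _ => 0)

/-- `w` at a node -/
noncomputable def wn (G : MvPolynomial (Fin 3) k) (d : ℕ) (j : Fin 3)
    (h r1 r2 : MvPolynomial (Fin 3) k) : A2 k :=
  xa j * ((d : A2 k) * aeval xa h * gA G * X (Sum.inr 2) +
    (yn G j r1 r2 (j + 1) * dn G j r1 r2 (yn G j r1 r2 (j + 2)) -
      yn G j r1 r2 (j + 2) * dn G j r1 r2 (yn G j r1 r2 (j + 1))))

/-- the substitution at a node -/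
noncomputable def psn (G : MvPolynomial (Fin 3) k) (d : ℕ) (j : Fin 3)
    (h r1 r2 : MvPolynomial (Fin 3) k) : R2 k →+* A2 k :=
  Polynomial.eval₂RingHom ((aeval (Sum.elim xa (yn G j r1 r2)) : A2 k →ₐ[k] A2 k) : A2 k →+* A2 k)
    (wn G d j h r1 r2)

/-- data at a node -/
structure NDt (G : MvPolynomial (Fin 3) k) (d : ℕ) (s : Fin 3 → k) (j : Fin 3)
    (h r1 r2 : MvPolynomial (Fin 3) k) : Prop where
  hs : eval s h ≠ 0
  eq : C (d : k) * h * G = pderiv (j + 1) G * r1 + pderiv (j + 2) G * r2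
  m1 : r1 ∈ Ideal.span {pderiv (j + 1) G, pderiv (j + 2) G}
  m2 : r2 ∈ Ideal.span {pderiv (j + 1) G, pderiv (j + 2) G}
  det : eval s (pderiv (j + 1) (pderiv (j + 1) G)) * eval s (pderiv (j + 2) (pderiv (j + 2) G)) -
    eval s (pderiv (j + 1) (pderiv (j + 2) G)) ^ 2 ≠ 0

end Node

/-- NCH: data at a node exist -/
def T_NCH : Prop := ∀ (k : Type) [Field k] [IsAlgClosed k] [CharZero k]
  (G : MvPolynomial (Fin 3) k) (d : ℕ), 1 ≤ d → G.IsHomogeneous d → ∀ s : Fin 3 → k, Node G s →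
  ∀ j, s j ≠ 0 → ∃ h r1 r2 : MvPolynomial (Fin 3) k, NDt G d s j h r1 r2

/-- NDV: divisibility by powers of `G` for the substitution at a node -/
def T_NDV : Prop := ∀ (k : Type) [Field k] [IsAlgClosed k] [CharZero k]
  (G : MvPolynomial (Fin 3) k) (d : ℕ), 1 ≤ d → G.IsHomogeneous d → Squarefree G →
  ∀ (s : Fin 3 → k) (j : Fin 3) (h r1 r2 : MvPolynomial (Fin 3) k), s j ≠ 0 →
  NDt G d s j h r1 r2 → ∃ h' : MvPolynomial (Fin 3) k, eval s h' ≠ 0 ∧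
  ∀ (n M : ℕ) (τ : ℤ) (N : R2 k), IsSec G d n τ M N →
    gA G ^ M ∣ aeval xa h' ^ M * psn G d j h r1 r2 N

/-- NGR: the coordinates `λ`, `g` of a curve are regular at a place over a node -/
def T_NGR : Prop := ∀ (k K : Type) [Field k] [IsAlgClosed k] [CharZero k] [Field K] [Algebra k K]
  (G : MvPolynomial (Fin 3) k) (d : ℕ), 1 ≤ d → G.IsHomogeneous d →
  ∀ (s : Fin 3 → k) (j : Fin 3) (h r1 r2 : MvPolynomial (Fin 3) k), NDt G d s j h r1 r2 →
  s j = 1 → ∀ (v : DV k K) (θ : Derivation k K K) (x : Fin 3 → K),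
  (∀ z : K, z ≠ 0 → ge v (v.ord z) (θ z)) → x j = 1 → (∀ i, ge v 1 (x i - algebraMap k K (s i))) →
  aeval x G ≠ 0 → ∃ lam g : K, ge v 0 lam ∧ ge v 0 g ∧
    θ (x (j + 1)) = lam * aeval x r1 + g * aeval x (pderiv (j + 2) G) ∧
    θ (x (j + 2)) = lam * aeval x r2 - g * aeval x (pderiv (j + 1) G)

/-- NEV: the value of an invariant element at a curve, in the coordinates at a node -/
def T_NEV : Prop := ∀ (k K : Type) [Field k] [CharZero k] [Field K] [Algebra k K]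
  (G : MvPolynomial (Fin 3) k) (d : ℕ) (j : Fin 3) (h r1 r2 : MvPolynomial (Fin 3) k),
  C (d : k) * h * G = pderiv (j + 1) G * r1 + pderiv (j + 2) G * r2 →
  ∀ (θ : Derivation k K K) (x : Fin 3 → K) (lam g : K), x j = 1 →
  θ (x (j + 1)) = lam * aeval x r1 + g * aeval x (pderiv (j + 2) G) →
  θ (x (j + 2)) = lam * aeval x r2 - g * aeval x (pderiv (j + 1) G) → ∀ N : R2 k,
  evc θ x N = aeval (Sum.elim x ![lam, g, g * θ lam - lam * θ g]) (psn G d j h r1 r2 N)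

/-- NIN: sections are regular at the places over a node, if the derivation is logarithmic -/
def T_NIN : Prop := ∀ (k K : Type) [Field k] [IsAlgClosed k] [CharZero k] [Field K] [Algebra k K]
  (G : MvPolynomial (Fin 3) k) (d : ℕ), 1 ≤ d → G.IsHomogeneous d → Squarefree G →
  ∀ (s : Fin 3 → k) (j : Fin 3), Node G s → s j = 1 →
  ∀ (v : DV k K) (θ : Derivation k K K) (x : Fin 3 → K),
  (∀ z : K, z ≠ 0 → ge v (v.ord z) (θ z)) → x j = 1 → (∀ i, ge v 1 (x i - algebraMap k K (s i))) →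
  aeval x G ≠ 0 → ∀ (n M : ℕ) (τ : ℤ) (N : R2 k), IsSec G d n τ M N →
  ge v 0 (evc θ x N / aeval x G ^ M)

/-- SCN: the fundamental inequality for curves with nodes -/
def T_SCN : Prop := ∀ (k : Type) [Field k] [IsAlgClosed k] [CharZero k]
  (G : MvPolynomial (Fin 3) k) (d : ℕ), 1 ≤ d → G.IsHomogeneous d → Squarefree G →
  (∀ s, Sing G s → Node G s) →
  ∀ (K : Type) [Field K] [Algebra k K] [Algebra.EssFiniteType k K], Algebra.trdeg k K = 1 →
  ∀ (D : Derivation k K K), D ≠ 0 → ∀ (x : Fin 3 → K) (S : Finset (DV k K)), Crv G d x S →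
  ∀ (n t M : ℕ) (N : R2 k), IsSec G d n (-(t : ℤ)) M N → evc D x N ≠ 0 →
  (t : ℤ) * deg k x ≤ n * (canDeg D + S.card)

/-! ### The second section -/

/-- NDN: the dimension inequality -/
def T_NDN : Prop := ∀ (k : Type) [Field k] [IsAlgClosed k] [CharZero k]
  (G : MvPolynomial (Fin 3) k) (d : ℕ), 140 ≤ d → Ird G d → Str G d →
  ∃ m : ℕ, 1 ≤ m ∧ ∀ (n : ℕ) (τ : ℤ), n ≤ 32 * m → 0 ≤ τ → τ ≤ d →
  Module.finrank k (E G d n τ) < Module.finrank k (E G d (36 * m) (-(((d - 3) * m : ℕ) : ℤ)))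

/-- SEN: every irreducible section, except a connection of very negative twist, has a negative
section without common factor -/
def T_SEN : Prop := ∀ (k : Type) [Field k] [IsAlgClosed k] [CharZero k]
  (G : MvPolynomial (Fin 3) k) (d : ℕ), 140 ≤ d → Ird G d → Str G d →
  ∀ (e m M' : ℕ) (P : R2 k), Irreducible P → 1 ≤ P.natDegree → Inv P → BHN e m P →
  ¬ gp G ^ (M' + 1) ∣ Psi G d 0 P → gp G ^ M' ∣ Psi G d 0 P →
  (m = 3 → 4 * ((d : ℤ) * M' - e - m) ≤ 3 * ((d : ℤ) - 3)) →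
  ∃ (n t M : ℕ) (N : R2 k), 1 ≤ t ∧ IsSec G d n (-(t : ℤ)) M N ∧ ¬ P ∣ N

/-! ### Connections -/

/-- FTP: a form of low degree through given points -/
def T_FTP : Prop := ∀ (k : Type) [Field k] (T : Finset (Fin 3 → k)) (r : ℕ),
  T.card < (r + 2).choose 2 → ∃ f : MvPolynomial (Fin 3) k, f ≠ 0 ∧ f.IsHomogeneous r ∧
  ∀ s ∈ T, eval s f = 0

/-- NLO: a form which vanishes at a node is locally in the Jacobian ideal -/
def T_NLO : Prop := ∀ (k : Type) [Field k] [IsAlgClosed k] [CharZero k]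
  (G : MvPolynomial (Fin 3) k) (d : ℕ), 1 ≤ d → G.IsHomogeneous d → ∀ s : Fin 3 → k, Node G s →
  ∀ (r : ℕ) (f : MvPolynomial (Fin 3) k), f.IsHomogeneous r → eval s f = 0 →
  ∃ h : MvPolynomial (Fin 3) k, eval s h ≠ 0 ∧ h * f ∈ Ideal.span (Set.range fun i => pderiv i G)

/-- JSA: a form of low degree in the saturation of the Jacobian ideal -/
def T_JSA : Prop := ∀ (k : Type) [Field k] [IsAlgClosed k] [CharZero k]
  (G : MvPolynomial (Fin 3) k) (d : ℕ), 20 ≤ d → Nodal G d →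
  ∃ (r : ℕ) (f : MvPolynomial (Fin 3) k) (N : ℕ), 12 * r + 8 < 3 * d ∧ f ≠ 0 ∧
  f.IsHomogeneous r ∧ ∀ j, X j ^ N * f ∈ Ideal.span (Set.range fun i => pderiv i G)

/-- CPO: the poles along the curve of the cubic part of a section of weight 3: over the curve it is
divisible by a power of `∇G · y` -/
def T_CPO : Prop := ∀ (k : Type) [Field k] [IsAlgClosed k] [CharZero k]
  (G : MvPolynomial (Fin 3) k) (d : ℕ), Ird G d → ∀ (e α κ : ℕ) (A : MvPolynomial (Fin 3) k)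
  (β : A2 k), 1 ≤ κ → A.IsHomogeneous α → BH e 3 β → dv β = 0 → ¬ gA G ∣ β →
  (∀ l, aeval xb G ^ (κ + 1) ∣ aeval (Sum.elim xb (chy G l)) β -
    aeval xb G ^ κ * (aeval xb A * hs G xb (chy G l) * (xb (l + 1) * qb 1 - xb (l + 2) * qb 0))) →
  κ ≤ 2 ∧ ∀ l, ∃ ω : A2 k, IsWeightedHomogeneous wy ω (2 - κ) ∧
    gA G ∣ gr G xa l ^ 3 * β - fA G ^ (κ + 1) * ω

/-- SNG: saturation on the curve, negative degree -/
def T_SNG : Prop := ∀ (k L : Type) [Field k] [IsAlgClosed k] [CharZero k] [Field L] [Algebra k L]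
  (G : MvPolynomial (Fin 3) k) (d : ℕ) (c : Fin 3 → L), Ird G d → GenPt G c →
  ∀ (f : L) (r : ℤ) (N : ℕ), r < 0 → (∀ l : Fin 3, c l ^ N * f ∈ SS (k := k) c (r + N)) → f = 0

/-- DML: coefficients of the products of powers of a linear form -/
def T_DML : Prop := ∀ (R : Type) [CommRing R] [Algebra ℚ R] (g o : Fin 3 → R)
  (t : Fin 3 → Fin 3 → Fin 3 → R),
  (∀ a b c, 3 * t a b c = g a * g b * o c + g a * g c * o b + g b * g c * o a) →
  ∀ a b c j, g a * g b * g c * o j =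
    g a * t b c j + g b * t a c j + g c * t a b j - 2 * (g j * t a b c)

/-- CSA: the cubic part of a section of weight 3 and very negative twist has no poles -/
def T_CSA : Prop := ∀ (k : Type) [Field k] [IsAlgClosed k] [CharZero k]
  (G : MvPolynomial (Fin 3) k) (d : ℕ), Ird G d → ∀ (r N : ℕ) (f : MvPolynomial (Fin 3) k),
  f ≠ 0 → f.IsHomogeneous r → (∀ j, X j ^ N * f ∈ Ideal.span (Set.range fun i => pderiv i G)) →
  ∀ (e α κ : ℕ) (β : A2 k), 1 ≤ κ → κ ≤ 2 → 3 * r + α + 3 < d → e = α + κ * d → BH e 3 β →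
  (∀ l, ∃ ω : A2 k, IsWeightedHomogeneous wy ω (2 - κ) ∧
    gA G ∣ gr G xa l ^ 3 * β - fA G ^ (κ + 1) * ω) → gA G ∣ β

/-- CNN: the irreducible sections of weight 3 and very negative twist are connections -/
def T_CNN : Prop := ∀ (k : Type) [Field k] [IsAlgClosed k] [CharZero k]
  (G : MvPolynomial (Fin 3) k) (d : ℕ), 20 ≤ d → Nodal G d →
  ∀ (e M' : ℕ) (P : R2 k), Irreducible P → 1 ≤ P.natDegree → Inv P → BHN e 3 P →
  gp G ^ M' ∣ Psi G d 0 P → 3 * ((d : ℤ) - 3) < 4 * ((d : ℤ) * M' - e - 3) →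
  ∃ (α : ℕ) (A : MvPolynomial (Fin 3) k) (b : A2 k), 4 * α + 4 ≤ d ∧ Conn G α A b ∧
  ∀ (K : Type) [Field K] [Algebra k K] (D : Derivation k K K) (x : Fin 3 → K),
  evc D x P = 0 → aeval x A * dt x (fun i => D (x i)) (fun i => D (D (x i))) +
    aeval (Sum.elim x fun i => D (x i)) b = 0

/-- S1N: the result of the first part -/
def T_S1N : Prop := ∀ (k : Type) [Field k] [IsAlgClosed k] [CharZero k]
  (G : MvPolynomial (Fin 3) k) (d : ℕ), 140 ≤ d → Nodal G d →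
  ∃ (B : ℕ) (cs : Set (A2 k)) (ps : Set (ℕ × MvPolynomial (Fin 3) k × A2 k)), cs.Finite ∧
  ps.Finite ∧ (∀ c ∈ cs, c ≠ 0 ∧ dv c = 0 ∧ ∃ e i, BH e i c) ∧
  (∀ p ∈ ps, 4 * p.1 + 4 ≤ d ∧ Conn G p.1 p.2.1 p.2.2) ∧
  ∀ (K : Type) [Field K] [Algebra k K] [Algebra.EssFiniteType k K], Algebra.trdeg k K = 1 →
  ∀ (D : Derivation k K K), D ≠ 0 → ∀ (x : Fin 3 → K) (S : Finset (DV k K)), Crv G d x S →
  (deg k x ≤ B * (canDeg D + S.card)) ∨
  (∃ c ∈ cs, aeval (Sum.elim x fun i => D (x i)) c = 0) ∨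
  ∃ p ∈ ps, aeval x p.2.1 * dt x (fun i => D (x i)) (fun i => D (D (x i))) +
    aeval (Sum.elim x fun i => D (x i)) p.2.2 = 0

/-! ### First order equations -/

/-- FOG: first order equations, every form `G` -/
def T_FOG : Prop := Pool.Agent.H3.OD.T_FO →
  ∀ (k : Type) [Field k] [IsAlgClosed k] [CharZero k]
  (G : MvPolynomial (Fin 3) k) (d : ℕ), 1 ≤ d → G.IsHomogeneous d →
  ∀ c : A2 k, c ≠ 0 → dv c = 0 → (∃ e i, BH e i c) → ∃ C : ℕ,
  ∀ (K : Type) [Field K] [Algebra k K] [Algebra.EssFiniteType k K], Algebra.trdeg k K = 1 →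
  ∀ (D : Derivation k K K), D ≠ 0 → ∀ (x : Fin 3 → K) (S : Finset (DV k K)), Prim k x →
  Crv G d x S → aeval (Sum.elim x fun i => D (x i)) c = 0 →
  (∃ (e : ℕ) (Φ : MvPolynomial (Fin 3) k), e ≤ C ∧ Φ ≠ 0 ∧ Φ.IsHomogeneous e ∧ aeval x Φ = 0) ∨
  deg k x ≤ C * S.card

/-! ### Contact -/

/-- BAP: the data of a connection at a smooth point of the curve -/
def T_BAP : Prop := ∀ (k : Type) [Field k] [IsAlgClosed k] [CharZero k]
  (G : MvPolynomial (Fin 3) k) (d α : ℕ) (A : MvPolynomial (Fin 3) k) (b : A2 k),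
  Ird G d → Conn G α A b → α < d → ∀ u0 u1 u2 : Fin 3 → k,
  dt u0 u1 u2 ≠ 0 → eval u0 G = 0 → dp (gr G u0) u2 ≠ 0 →
  ∃ (φ : HS k) (a : ℕ), Bas (aU A u0 u1 u2) (bU b u0 u1 u2) φ a ∧
  (eval u0 A ≠ 0 → a = 0) ∧ (eval u0 A = 0 → 1 ≤ a) ∧
  ∀ (U : HS k) (μ : ℚ), 0 < μ → IsO U μ → IsO (aeval ![uu k, φ + U] (gU G u0 u1 u2)) μ

/-- LAP: contact at a smooth point of the curve where `A` vanishes -/
def T_LAP : Prop := ∀ (k : Type) [Field k] [IsAlgClosed k] [CharZero k]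
  (G : MvPolynomial (Fin 3) k) (d α : ℕ) (A : MvPolynomial (Fin 3) k) (b : A2 k),
  Ird G d → Conn G α A b → α < d → ∀ s : Fin 3 → k, s ≠ 0 → eval s G = 0 → ¬ Sing G s →
  eval s A = 0 → ∃ C : ℕ, ∀ (K : Type) [Field K] [Algebra k K] [Algebra.EssFiniteType k K],
  Algebra.trdeg k K = 1 → ∀ (D : Derivation k K K), D ≠ 0 → ∀ (x : Fin 3 → K) (v : DV k K),
  (∃ j, x j = 1) → Prim k x → NL k x → aeval x G ≠ 0 → aeval x A ≠ 0 → CEq D A b x →
  Cen v x s → nord v x d G ≤ nord v x α A ∨ nord v x d G ≤ C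

/-- LBP: contact at a smooth point of the curve where `A` does not vanish -/
def T_LBP : Prop := ∀ (k : Type) [Field k] [IsAlgClosed k] [CharZero k]
  (G : MvPolynomial (Fin 3) k) (d α : ℕ) (A : MvPolynomial (Fin 3) k) (b : A2 k),
  Ird G d → Conn G α A b → α < d → ∀ s : Fin 3 → k, s ≠ 0 → eval s G = 0 → ¬ Sing G s →
  eval s A ≠ 0 → ∀ (K : Type) [Field K] [Algebra k K] [Algebra.EssFiniteType k K],
  Algebra.trdeg k K = 1 → ∀ (D : Derivation k K K), D ≠ 0 → ∀ (x : Fin 3 → K) (v : DV k K),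
  (∃ j, x j = 1) → Prim k x → NL k x → aeval x G ≠ 0 → aeval x A ≠ 0 → CEq D A b x →
  Cen v x s → nord v x d G ≤ 1

/-- BRN: the two branches at a node -/
def T_BRN : Prop := ∀ (k : Type) [Field k] [IsAlgClosed k] [CharZero k]
  (g : MvPolynomial (Fin 2) k), eval ![0, 0] g = 0 → eval ![0, 0] (pderiv 0 g) = 0 →
  eval ![0, 0] (pderiv 1 g) = 0 → eval ![0, 0] (pderiv 1 (pderiv 1 g)) ≠ 0 →
  eval ![0, 0] (pderiv 0 (pderiv 0 g)) * eval ![0, 0] (pderiv 1 (pderiv 1 g)) -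
    eval ![0, 0] (pderiv 0 (pderiv 1 g)) ^ 2 ≠ 0 →
  ∃ φ1 φ2 : HS k, Lat 1 φ1 ∧ Lat 1 φ2 ∧ geO 1 φ1 ∧ geO 1 φ2 ∧ IsO (φ1 - φ2) 1 ∧
  aeval ![uu k, φ1] g = 0 ∧ aeval ![uu k, φ2] g = 0 ∧
  ∀ (y : HS k) (μ1 μ2 : ℚ), geO 1 y → IsO (y - φ1) μ1 → IsO (y - φ2) μ2 →
    IsO (aeval ![uu k, y] g) (μ1 + μ2)

/-- BAN: the data of a connection at a node, for a branch `φ` of the curve -/
def T_BAN : Prop := ∀ (k : Type) [Field k] [IsAlgClosed k] [CharZero k]
  (G : MvPolynomial (Fin 3) k) (d α : ℕ) (A : MvPolynomial (Fin 3) k) (b : A2 k),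
  Ird G d → Conn G α A b → α < d → ∀ u0 u1 u2 : Fin 3 → k,
  dt u0 u1 u2 ≠ 0 → ∀ φ : HS k, Lat 1 φ → geO 1 φ → aeval ![uu k, φ] (gU G u0 u1 u2) = 0 →
  ∃ a : ℕ, Bas (aU A u0 u1 u2) (bU b u0 u1 u2) φ a ∧
  (eval u0 A ≠ 0 → a = 0) ∧ (eval u0 A = 0 → 1 ≤ a)

/-- LCN: contact at a node -/
def T_LCN : Prop := ∀ (k : Type) [Field k] [IsAlgClosed k] [CharZero k]
  (G : MvPolynomial (Fin 3) k) (d α : ℕ) (A : MvPolynomial (Fin 3) k) (b : A2 k),
  Ird G d → Conn G α A b → α < d → ∀ s : Fin 3 → k, Node G s →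
  ∃ C : ℕ, ∀ (K : Type) [Field K] [Algebra k K] [Algebra.EssFiniteType k K],
  Algebra.trdeg k K = 1 → ∀ (D : Derivation k K K), D ≠ 0 → ∀ (x : Fin 3 → K) (v : DV k K),
  (∃ j, x j = 1) → Prim k x → NL k x → aeval x G ≠ 0 → aeval x A ≠ 0 → CEq D A b x →
  Cen v x s → nord v x d G ≤ 2 * nord v x α A ∨ nord v x d G ≤ C

/-- SMN: the degree of the solutions of a connection -/
def T_SMN : Prop := ∀ (k : Type) [Field k] [IsAlgClosed k] [CharZero k]
  (G : MvPolynomial (Fin 3) k) (d α : ℕ) (A : MvPolynomial (Fin 3) k) (b : A2 k),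
  Nodal G d → Conn G α A b → 2 * α < d → ∃ C : ℕ,
  ∀ (K : Type) [Field K] [Algebra k K] [Algebra.EssFiniteType k K], Algebra.trdeg k K = 1 →
  ∀ (D : Derivation k K K), D ≠ 0 → ∀ (x : Fin 3 → K) (S : Finset (DV k K)), Prim k x →
  Crv G d x S → CEq D A b x →
  (∃ (e : ℕ) (Φ : MvPolynomial (Fin 3) k), e ≤ C ∧ Φ ≠ 0 ∧ Φ.IsHomogeneous e ∧ aeval x Φ = 0) ∨
  deg k x ≤ C * S.card

/-! ### First theorem -/

/-- MAN: irreducible nodal curves, normalised coordinates -/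
def T_MAN : Prop := ∀ (k : Type) [Field k] [IsAlgClosed k] [CharZero k]
  (G : MvPolynomial (Fin 3) k) (d : ℕ), 140 ≤ d → Nodal G d → ∃ B : ℕ,
  ∀ (K : Type) [Field K] [Algebra k K] [Algebra.EssFiniteType k K], Algebra.trdeg k K = 1 →
  ∀ (D : Derivation k K K), D ≠ 0 → ∀ (x : Fin 3 → K) (S : Finset (DV k K)), Crv G d x S →
  ∃ (e : ℕ) (Φ : MvPolynomial (Fin 3) k), (e : ℤ) ≤ B * max 1 (canDeg D + S.card) ∧ Φ ≠ 0 ∧
    Φ.IsHomogeneous e ∧ aeval x Φ = 0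

end Pool.Agent.H84.ND
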