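import Pool.Agent.H84.ND.Targets2

/-!
# MP_70ba79_ag: targets of the board `ndc_modules`, part 3: all plane curves with normal crossings
-/

set_option autoImplicit false

namespace Pool.Agent.H84.ND

open MvPolynomial SC Pool.Agent.H27.LV Pool.Agent.H84.SM

/-! ### Intersection points of two transversal curves -/

/-- BZL: a linear form is a nonzerodivisor modulo two forms without common zero on the line -/
def T_BZL : Prop := ∀ (k : Type) [Field k] [IsAlgClosed k] [CharZero k]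
  (H1 H2 ℓ : MvPolynomial (Fin 3) k) (a b : ℕ), H1.IsHomogeneous a → H2.IsHomogeneous b →
  ℓ.IsHomogeneous 1 → ℓ ≠ 0 →
  (∀ s : Fin 3 → k, s ≠ 0 → eval s ℓ = 0 → eval s H1 = 0 → eval s H2 ≠ 0) →
  ∀ f, ℓ * f ∈ Ideal.span {H1, H2} → f ∈ Ideal.span {H1, H2}

/-- BZM: a form which vanishes at a transversal intersection point is locally in the ideal -/
def T_BZM : Prop := ∀ (k : Type) [Field k] [IsAlgClosed k] [CharZero k]
  (H1 H2 : MvPolynomial (Fin 3) k) (a b : ℕ), H1.IsHomogeneous a → H2.IsHomogeneous b →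
  ∀ s : Fin 3 → k, s ≠ 0 → eval s H1 = 0 → eval s H2 = 0 → cr (gr H1 s) (gr H2 s) ≠ 0 →
  ∀ (f : MvPolynomial (Fin 3) k) (r : ℕ), f.IsHomogeneous r → eval s f = 0 →
  ∃ h : MvPolynomial (Fin 3) k, eval s h ≠ 0 ∧ h * f ∈ Ideal.span {H1, H2}

/-- BZN: a form which vanishes at all intersection points is in the ideal -/
def T_BZN : Prop := ∀ (k : Type) [Field k] [IsAlgClosed k] [CharZero k]
  (H1 H2 : MvPolynomial (Fin 3) k) (a b : ℕ), H1.IsHomogeneous a → H2.IsHomogeneous b →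
  (∀ s : Fin 3 → k, s ≠ 0 → eval s H1 = 0 → eval s H2 = 0 → cr (gr H1 s) (gr H2 s) ≠ 0) →
  ∀ T : Finset (Fin 3 → k), (∀ s : Fin 3 → k, s ≠ 0 → eval s H1 = 0 → eval s H2 = 0 →
    ∃ s' ∈ T, s' ≠ 0 ∧ ∃ c : k, s = c • s') →
  ∀ (f : MvPolynomial (Fin 3) k) (r : ℕ), f.IsHomogeneous r →
  (∀ s : Fin 3 → k, s ≠ 0 → eval s H1 = 0 → eval s H2 = 0 → eval s f = 0) →
  f ∈ Ideal.span {H1, H2}

/-- BEZ: two transversal curves of degrees `a`, `b` have at least `a b` common points -/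
def T_BEZ : Prop := ∀ (k : Type) [Field k] [IsAlgClosed k] [CharZero k]
  (H1 H2 : MvPolynomial (Fin 3) k) (a b : ℕ), H1.IsHomogeneous a → H2.IsHomogeneous b →
  H1 ≠ 0 → H2 ≠ 0 →
  (∀ s : Fin 3 → k, s ≠ 0 → eval s H1 = 0 → eval s H2 = 0 → cr (gr H1 s) (gr H2 s) ≠ 0) →
  ∃ T : Finset (Fin 3 → k), (∀ s ∈ T, s ≠ 0 ∧ eval s H1 = 0 ∧ eval s H2 = 0) ∧
    (∀ s ∈ T, ∀ s' ∈ T, s ≠ s' → cr s s' ≠ 0) ∧ a * b ≤ T.card

/-! ### Components of a curve with few nodes -/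

/-- SQF: curves with normal crossings are reduced -/
def T_SQF : Prop := ∀ (k : Type) [Field k] [IsAlgClosed k] [CharZero k]
  (G : MvPolynomial (Fin 3) k) (d : ℕ), 1 ≤ d → G.IsHomogeneous d →
  (∀ s, Sing G s → Node G s) → Squarefree G

/-- BGA: the common points of two parts of a curve with normal crossings -/
def T_BGA : Prop := ∀ (k : Type) [Field k] [IsAlgClosed k] [CharZero k]
  (H1 H2 : MvPolynomial (Fin 3) k) (a b : ℕ), H1.IsHomogeneous a → H2.IsHomogeneous b →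
  H1 ≠ 0 → H2 ≠ 0 → (∀ s, Sing (H1 * H2) s → Node (H1 * H2) s) →
  ∃ T : Finset (Fin 3 → k), (∀ s ∈ T, Sing (H1 * H2) s) ∧
    (∀ s ∈ T, ∀ s' ∈ T, s ≠ s' → cr s s' ≠ 0) ∧ a * b ≤ T.card

/-- BGC: a curve with normal crossings and few nodes has a component of large degree -/
def T_BGC : Prop := ∀ (k : Type) [Field k] [IsAlgClosed k] [CharZero k]
  (G : MvPolynomial (Fin 3) k) (d : ℕ), 12 ≤ d → G.IsHomogeneous d → Squarefree G →
  (∀ s, Sing G s → Node G s) →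
  (∀ T : Finset (Fin 3 → k), (∀ s ∈ T, Sing G s) → (∀ s ∈ T, ∀ s' ∈ T, s ≠ s' → cr s s' ≠ 0) →
    T.card + 6 ≤ 3 * d) →
  ∃ (G1 G2 : MvPolynomial (Fin 3) k) (d1 d2 : ℕ), G = G1 * G2 ∧ Ird G1 d1 ∧
    G2.IsHomogeneous d2 ∧ d1 + d2 = d ∧ d2 ≤ 3 ∧ (∀ s, Sing G1 s → Node G1 s) ∧
    ∀ s, Sing G1 s → Sing G s

/-! ### Many nodes -/

/-- NE -/
def T_NE : Prop := ∀ d : ℕ, 4 ≤ d → ∃ (i : ℕ) (t1 : ℤ), ∀ t : ℤ, t1 ≤ t →
  ubs d i t < bdim d (t - i) i + (3 * d - 5) * (i + 2).choose 3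

/-- LBA: lower bound for `SJ` -/
def T_LBA : Prop := ∀ (k : Type) [Field k] [IsAlgClosed k] [CharZero k]
  (G : MvPolynomial (Fin 3) k) (d : ℕ), 2 ≤ d → G.IsHomogeneous d → Squarefree G →
  (∀ s, Sing G s → Node G s) → ∀ T : Finset (Fin 3 → k), (∀ s ∈ T, Sing G s) →
  (∀ s ∈ T, ∀ s' ∈ T, s ≠ s' → cr s s' ≠ 0) → ∀ i : ℕ, ∃ t0 : ℤ, ∀ t : ℤ, t0 ≤ t →
  ∃ V : Submodule k (F2 k), V ≤ SJ G d i t ∧ Module.Finite k V ∧
    bdim d (t - i) i + T.card * (i + 2).choose 3 ≤ Module.finrank k V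

/-- FWN: few nodes if there are no sections of degree 0 in `w` and negative twist -/
def T_FWN : Prop := ∀ (k : Type) [Field k] [IsAlgClosed k] [CharZero k]
  (G : MvPolynomial (Fin 3) k) (d : ℕ), 4 ≤ d → G.IsHomogeneous d → Squarefree G →
  (∀ s, Sing G s → Node G s) → Str G d → ∀ T : Finset (Fin 3 → k), (∀ s ∈ T, Sing G s) →
  (∀ s ∈ T, ∀ s' ∈ T, s ≠ s' → cr s s' ≠ 0) → T.card + 6 ≤ 3 * d

/-! ### Theorem for all curves with normal crossings -/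

/-- the curves in the complement of `G = 0` have image degree at most `B max (1, χ)` -/
def Cnl {k : Type} [Field k] (G : MvPolynomial (Fin 3) k) (d : ℕ) : Prop := ∃ B : ℕ,
  ∀ (K : Type) [Field K] [Algebra k K] [Algebra.EssFiniteType k K], Algebra.trdeg k K = 1 →
  ∀ (D : Derivation k K K), D ≠ 0 → ∀ (x : Fin 3 → K) (S : Finset (DV k K)), Crv G d x S →
  ∃ (e : ℕ) (Φ : MvPolynomial (Fin 3) k), (e : ℤ) ≤ B * max 1 (canDeg D + S.card) ∧ Φ ≠ 0 ∧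
    Φ.IsHomogeneous e ∧ aeval x Φ = 0

/-- NSB: the case that there is a section of degree 0 in `w` and negative twist -/
def T_NSB : Prop := ∀ (k : Type) [Field k] [IsAlgClosed k] [CharZero k]
  (G : MvPolynomial (Fin 3) k) (d : ℕ), 1 ≤ d → G.IsHomogeneous d → Squarefree G →
  (∀ s, Sing G s → Node G s) → ¬ Str G d → Cnl G d

/-- CRF: curves in the complement of a union are in the complement of the components -/
def T_CRF : Prop := ∀ (k K : Type) [Field k] [Field K] [Algebra k K]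
  (G1 G2 : MvPolynomial (Fin 3) k) (d1 d2 : ℕ), G1.IsHomogeneous d1 → G2.IsHomogeneous d2 →
  ∀ (x : Fin 3 → K) (S : Finset (DV k K)), Crv (G1 * G2) (d1 + d2) x S → Crv G1 d1 x S

/-- ALN: curves with normal crossings, normalised coordinates -/
def T_ALN : Prop := ∀ (k : Type) [Field k] [IsAlgClosed k] [CharZero k]
  (G : MvPolynomial (Fin 3) k) (d : ℕ), 143 ≤ d → G.IsHomogeneous d →
  (∀ s, Sing G s → Node G s) → Cnl G d

/-- FIN: curves with normal crossings, all homogeneous coordinates -/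
def T_FIN : Prop := ∀ (k : Type) [Field k] [IsAlgClosed k] [CharZero k]
  (d : ℕ) (G : MvPolynomial (Fin 3) k), 143 ≤ d → G.IsHomogeneous d →
  (∀ a y : Fin 3 → k, a ≠ 0 → (∀ i, eval a (pderiv i G) = 0) →
    (∀ i, ∑ j, eval a (pderiv i (pderiv j G)) * y j = 0) → ∃ c : k, y = c • a) →
  ∃ B : ℕ, ∀ (K : Type) [Field K] [Algebra k K] [Algebra.EssFiniteType k K],
  Algebra.trdeg k K = 1 → ∀ (D : Derivation k K K), D ≠ 0 →
  ∀ (x : Fin 3 → K) (S : Finset (DV k K)), aeval x G ≠ 0 →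
  (∀ v, v ∉ S → ∃ j, x j ≠ 0 ∧ (∀ i, x i ≠ 0 → v.ord (x j) ≤ v.ord (x i)) ∧
    v.ord (aeval x G) = d * v.ord (x j)) →
  ∃ (e : ℕ) (Φ : MvPolynomial (Fin 3) k), (e : ℤ) ≤ B * max 1 (canDeg D + S.card) ∧ Φ ≠ 0 ∧
    Φ.IsHomogeneous e ∧ aeval x Φ = 0

end Pool.Agent.H84.ND
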